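import Pool.Agent.W622.SC.Stmts

set_option autoImplicit false

open unitInterval Topology ContinuousMap

namespace Pool.Agent.W255.SCCA1

/-- The subalgebra of Lipschitz functions. -/
noncomputable def lipAlg (X : Type) [MetricSpace X] [CompactSpace X] : Subalgebra ℝ C(X, ℝ) where
  carrier := {f | ∃ K : NNReal, LipschitzWith K f}
  mul_mem' := by
    rintro f g ⟨K, hf⟩ ⟨L, hg⟩
    refine ⟨‖f‖₊ * L + ‖g‖₊ * K, LipschitzWith.of_dist_le_mul fun x y => ?_⟩
    have e1 : (f * g) x - (f * g) y = f x * (g x - g y) + (f x - f y) * g y := by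
      simp only [ContinuousMap.mul_apply]; ring
    rw [Real.dist_eq, e1]
    have h1 := hf.dist_le_mul x y
    have h2 := hg.dist_le_mul x y
    rw [Real.dist_eq] at h1 h2
    have h3 : |f x| ≤ ‖f‖ := f.norm_coe_le_norm x
    have h4 : |g y| ≤ ‖g‖ := g.norm_coe_le_norm y
    calc |f x * (g x - g y) + (f x - f y) * g y|
        ≤ |f x| * |g x - g y| + |f x - f y| * |g y| := by
          refine (abs_add_le _ _).trans ?_
          rw [abs_mul, abs_mul]
      _ ≤ ‖f‖ * (L * dist x y) + (K * dist x y) * ‖g‖ := by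
          gcongr
      _ = _ := by
          push_cast
          ring
  add_mem' := by
    rintro f g ⟨K, hf⟩ ⟨L, hg⟩
    exact ⟨K + L, hf.add hg⟩
  algebraMap_mem' := by
    intro r
    refine ⟨0, LipschitzWith.of_dist_le_mul fun x y => ?_⟩
    simp

theorem lipAlg_sep (X : Type) [MetricSpace X] [CompactSpace X] :
    (lipAlg X).SeparatesPoints := by
  intro x y hxy
  refine ⟨fun z => dist z x, ⟨⟨fun z => dist z x, by fun_prop⟩, ⟨1, ?_⟩, rfl⟩, ?_⟩
  · exact LipschitzWith.dist_left x
  · simp only [dist_self]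
    intro h
    exact hxy (dist_eq_zero.mp h.symm).symm

theorem main : Pool.Agent.W622.SC.S_CA1 := by
  intro N V hV hdim m hm f ε hε
  have : CompactSpace V := isCompact_iff_compactSpace.mp hV
  have key : ∀ i : Fin m, ∃ g : C(V, ℝ), (∃ K : NNReal, LipschitzWith K g) ∧
      ‖g - (⟨fun x => f x i, by fun_prop⟩ : C(V, ℝ))‖ < ε / 2 := by
    intro i
    obtain ⟨g, hg⟩ := ContinuousMap.exists_mem_subalgebra_near_continuousMap_of_separatesPoints
      (lipAlg V) (lipAlg_sep V) ⟨fun x => f x i, by fun_prop⟩ (ε / 2) (by positivity)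
    exact ⟨g.1, g.2, hg⟩
  choose g hg1 hg2 using key
  choose K hK using hg1
  let F : C(V, Fin m → ℝ) := ⟨fun x i => g i x, by fun_prop⟩
  have hFlip : LipschitzWith (∑ i, K i) F := by
    refine LipschitzWith.of_dist_le_mul fun x y => ?_
    rw [dist_pi_le_iff (by positivity)]
    intro i
    refine ((hK i).dist_le_mul x y).trans ?_
    have : (K i : ℝ) ≤ ((∑ i, K i : NNReal) : ℝ) := by
      exact_mod_cast Finset.single_le_sum (f := K) (fun _ _ => bot_le) (Finset.mem_univ i)
    gcongr
  have hVdim : dimH (Set.univ : Set V) ≤ 4 := by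
    have h1 := (isometry_subtype_coe (s := V)).dimH_image Set.univ
    rw [Set.image_univ, Subtype.range_coe] at h1
    rw [← h1]
    exact hdim
  have hR : dimH (Set.range F) < (Module.finrank ℝ (Fin m → ℝ) : ENNReal) := by
    refine lt_of_le_of_lt (hFlip.dimH_range_le.trans hVdim) ?_
    rw [Module.finrank_fin_fun]
    have : (4 : ENNReal) < ((5 : ℕ) : ENNReal) := by norm_num
    refine lt_of_lt_of_le this ?_
    exact_mod_cast hm
  have hd := dense_compl_of_dimH_lt_finrank hR
  obtain ⟨b, hb1, hb2⟩ := hd.exists_mem_open (Metric.isOpen_ball (x := (0 : Fin m → ℝ)) (ε := ε))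
    ⟨0, Metric.mem_ball_self hε⟩
  refine ⟨F, b, ?_, ?_, ?_⟩
  · intro x
    refine lt_of_le_of_lt ?_ (half_lt_self hε)
    rw [pi_norm_le_iff_of_nonneg (by positivity)]
    intro i
    have := (g i - (⟨fun x => f x i, by fun_prop⟩ : C(V, ℝ))).norm_coe_le_norm x
    exact (this.trans (hg2 i).le)
  · simpa using hb2
  · intro x hx
    exact hb1 ⟨x, hx⟩

end Pool.Agent.W255.SCCA1
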