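import Pool.Agent.W622.SC.Stmts

set_option autoImplicit false

open unitInterval Topology ContinuousMap Filter

namespace Pool.Agent.W255.SCCA2

open Pool.Agent.W622.SC

/-! ### radial push in the ball -/

section push

variable {k : ℕ}

/-- the unit ball seen from `b` -/
def sb (b : Fin k → ℝ) : Set (Fin k → ℝ) := Metric.closedBall (-b) 1

/-- radial projection to the sphere from `b` -/
noncomputable def RR (b y : Fin k → ℝ) : Fin k → ℝ := b + (gauge (sb b) (y - b))⁻¹ • (y - b)

lemma sb_convex (b : Fin k → ℝ) : Convex ℝ (sb b) := convex_closedBall _ _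

lemma sb_nhds (b : Fin k → ℝ) (hb : ‖b‖ < 1) : sb b ∈ 𝓝 (0 : Fin k → ℝ) := by
  apply Filter.mem_of_superset (Metric.isOpen_ball.mem_nhds (x := (0 : Fin k → ℝ))
    (s := Metric.ball (-b) 1) ?_) Metric.ball_subset_closedBall
  rw [Metric.mem_ball, dist_eq_norm]
  simpa using hb

lemma gauge_sb_pos (b : Fin k → ℝ) (hb : ‖b‖ < 1) (v : Fin k → ℝ) (hv : v ≠ 0) :
    0 < gauge (sb b) v := by
  refine (gauge_pos (absorbent_nhds_zero (sb_nhds b hb)) ?_).mpr hv
  exact (NormedSpace.isVonNBounded_iff ℝ).mpr Metric.isBounded_closedBall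

lemma mem_frontier_sb (b v : Fin k → ℝ) : v ∈ frontier (sb b) ↔ ‖b + v‖ = 1 := by
  unfold sb
  rw [frontier_closedBall _ one_ne_zero, Metric.mem_sphere, dist_eq_norm]
  rw [sub_neg_eq_add, add_comm]

lemma RR_norm (b y : Fin k → ℝ) (hb : ‖b‖ < 1) (hy : y ≠ b) : ‖RR b y‖ = 1 := by
  have hv : y - b ≠ 0 := sub_ne_zero.mpr hy
  have ht := gauge_sb_pos b hb _ hv
  unfold RR
  rw [← mem_frontier_sb, ← gauge_eq_one_iff_mem_frontier (sb_convex b) (sb_nhds b hb),
    gauge_smul_of_nonneg (inv_nonneg.mpr ht.le), smul_eq_mul]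
  exact inv_mul_cancel₀ ht.ne'

lemma RR_sphere (b y : Fin k → ℝ) (hb : ‖b‖ < 1) (hy : ‖y‖ = 1) : RR b y = y := by
  have h1 : gauge (sb b) (y - b) = 1 := by
    rw [gauge_eq_one_iff_mem_frontier (sb_convex b) (sb_nhds b hb), mem_frontier_sb]
    simpa using hy
  unfold RR
  rw [h1]
  simp

lemma RR_cont (b y : Fin k → ℝ) (hb : ‖b‖ < 1) (hy : y ≠ b) : ContinuousAt (RR b) y := by
  have hv : y - b ≠ 0 := sub_ne_zero.mpr hy
  have ht := gauge_sb_pos b hb _ hv
  have hg : Continuous (fun y : Fin k → ℝ => gauge (sb b) (y - b)) :=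
    (continuous_gauge (sb_convex b) (sb_nhds b hb)).comp (by fun_prop)
  unfold RR
  refine continuousAt_const.add (ContinuousAt.smul (hg.continuousAt.inv₀ ht.ne') ?_)
  fun_prop

/-- cutoff -/
noncomputable def chi (s : ℝ) : ℝ := max 0 (min 1 (2 - 4 * s))

lemma chi_cont : Continuous chi := by unfold chi; fun_prop

lemma chi_one (s : ℝ) (hs : s ≤ 1 / 4) : chi s = 1 := by
  unfold chi
  rw [min_eq_left (by linarith), max_eq_right zero_le_one]

lemma chi_zero (s : ℝ) (hs : 1 / 2 ≤ s) : chi s = 0 := by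
  unfold chi
  rw [max_eq_left]
  exact (min_le_right _ _).trans (by linarith)

lemma chi_nonneg (s : ℝ) : 0 ≤ chi s := le_max_left _ _

lemma chi_le_one (s : ℝ) : chi s ≤ 1 := max_le zero_le_one (min_le_left _ _)

end push

section CW

variable {Y : Type} [TopologicalSpace Y] [T2Space Y] [CWComplex (Set.univ : Set Y)]

/-- skeleta -/
def sk (Y : Type) [TopologicalSpace Y] [T2Space Y] [CWComplex (Set.univ : Set Y)] (k : ℕ) :
    Set Y := (RelCWComplex.skeletonLT (Set.univ : Set Y) (k : ℕ∞) : Set Y)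

lemma mem_sk (k : ℕ) (y : Y) :
    y ∈ sk Y k ↔ ∃ (m : ℕ) (_ : m < k) (j : RelCWComplex.cell (Set.univ : Set Y) m),
      y ∈ RelCWComplex.openCell m j := by
  have h := CWComplex.mem_skeletonLT_iff (C := (Set.univ : Set Y)) (n := (k : ℕ∞)) (x := y)
  unfold sk
  rw [SetLike.mem_coe, h]
  simp only [Nat.cast_lt]

lemma sk_mono {k l : ℕ} (h : k ≤ l) : sk Y k ⊆ sk Y l := by
  intro y hy
  rw [mem_sk] at *
  obtain ⟨m, hm, j, hj⟩ := hy
  exact ⟨m, by omega, j, hj⟩

lemma sk_disj (k : ℕ) (n : ℕ) (h : k ≤ n) (j : RelCWComplex.cell (Set.univ : Set Y) n) :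
    Disjoint (sk Y k) (RelCWComplex.openCell n j) :=
  RelCWComplex.disjoint_skeletonLT_openCell (by exact_mod_cast h)

lemma frontier_sub (k : ℕ) (e : RelCWComplex.cell (Set.univ : Set Y) k) :
    RelCWComplex.cellFrontier k e ⊆ sk Y k :=
  RelCWComplex.cellFrontier_subset_skeletonLT k e

lemma closed_sub (k : ℕ) (e : RelCWComplex.cell (Set.univ : Set Y) k) :
    RelCWComplex.closedCell k e ⊆ sk Y (k + 1) := by
  rw [← RelCWComplex.cellFrontier_union_openCell_eq_closedCell]
  intro y hy
  rcases hy with h | h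
  · exact sk_mono (Nat.le_succ k) (frontier_sub k e h)
  · rw [mem_sk]
    exact ⟨k, Nat.lt_succ_self k, e, h⟩

lemma cell_closed (k : ℕ) (e : RelCWComplex.cell (Set.univ : Set Y) k) :
    IsClosed (sk Y (k + 1) \ RelCWComplex.openCell k e) := by
  apply CWComplex.isClosed_of_disjoint_openCell_or_isClosed_inter_closedCell
    (C := (Set.univ : Set Y)) (Set.subset_univ _)
  intro n _ j
  by_cases hn : k + 1 ≤ n
  · left
    exact (sk_disj (k + 1) n hn j).mono_left Set.sdiff_subset
  · by_cases hej : (⟨n, j⟩ : Σ n, RelCWComplex.cell (Set.univ : Set Y) n) = ⟨k, e⟩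
    · left
      obtain ⟨h1, h2⟩ := Sigma.mk.inj_iff.mp hej
      subst h1
      rw [eq_of_heq h2]
      exact Set.disjoint_sdiff_left
    · right
      have hsub : RelCWComplex.closedCell n j ⊆ sk Y (k + 1) \ RelCWComplex.openCell k e := by
        intro y hy
        refine ⟨sk_mono (by omega) (closed_sub n j hy), ?_⟩
        intro hye
        rw [← RelCWComplex.cellFrontier_union_openCell_eq_closedCell] at hy
        rcases hy with h | h
        · exact Set.disjoint_left.mp (sk_disj n k (by omega) e) (frontier_sub n j h) hye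
        · exact Set.disjoint_left.mp (RelCWComplex.disjoint_openCell_of_ne hej) h hye
      rw [Set.inter_eq_right.mpr hsub]
      exact RelCWComplex.isClosed_closedCell

theorem step (hCA1 : S_CA1) {N : ℕ} {A : Set (EuclideanSpace ℝ (Fin N))} (hA : IsCompact A)
    (hd : dimH A ≤ 4) (k : ℕ) (hk : 5 ≤ k) (e : RelCWComplex.cell (Set.univ : Set Y) k)
    (g : C(A, Y)) (hg : ∀ x, g x ∈ sk Y (k + 1)) :
    ∃ g' : C(A, Y), g.Homotopic g' ∧
      ∀ x, (g' x = g x ∧ g x ∉ RelCWComplex.openCell k e) ∨ g' x ∈ sk Y k := by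
  classical
  have hAc : CompactSpace A := isCompact_iff_compactSpace.mp hA
  set Φ := RelCWComplex.map (C := (Set.univ : Set Y)) k e with hΦ
  have hsrc : Φ.source = Metric.ball 0 1 := RelCWComplex.source_eq k e
  have hopen : RelCWComplex.openCell k e = Φ '' Metric.ball 0 1 := rfl
  have htgt : Φ.target = RelCWComplex.openCell k e := by
    rw [hopen, ← hsrc, Φ.image_source_eq_target]
  have hΦc : ContinuousOn Φ (Metric.closedBall 0 1) := RelCWComplex.continuousOn k e
  set U : Set A := {x | g x ∈ RelCWComplex.openCell k e} with hU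
  have hUo : IsOpen U := by
    have h1 : U = g ⁻¹' (sk Y (k + 1) \ RelCWComplex.openCell k e)ᶜ := by
      ext x
      simp only [hU, Set.mem_ofPred_eq, Set.mem_preimage, Set.mem_compl_iff, Set.mem_sdiff, not_and,
        not_not]
      exact ⟨fun h _ => h, fun h => h (hg x)⟩
    rw [h1]
    exact (cell_closed k e).isOpen_compl.preimage g.continuous
  set ψ : A → Fin k → ℝ := fun x => Φ.symm (g x) with hψ
  have hψc : ContinuousOn ψ U := by
    have h1 : ContinuousOn Φ.symm Φ.target := RelCWComplex.continuousOn_symm k e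
    refine h1.comp g.continuous.continuousOn ?_
    intro x hx
    rw [htgt]
    exact hx
  have hψb : ∀ x ∈ U, ‖ψ x‖ < 1 := by
    intro x hx
    have h1 : ψ x ∈ Φ.source := Φ.map_target (by rw [htgt]; exact hx)
    rw [hsrc] at h1
    simpa using h1
  have hψr : ∀ x ∈ U, Φ (ψ x) = g x := by
    intro x hx
    exact Φ.right_inv (by rw [htgt]; exact hx)
  -- the small ball
  set V : Set A := g ⁻¹' (Φ '' Metric.closedBall 0 (1 / 2)) with hV
  have hVc : IsClosed V := by
    refine IsClosed.preimage g.continuous (IsCompact.isClosed ?_)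
    refine (isCompact_closedBall _ _).image_of_continuousOn (hΦc.mono ?_)
    exact Metric.closedBall_subset_closedBall (by norm_num)
  have hVU : ∀ x, x ∈ V ↔ x ∈ U ∧ ‖ψ x‖ ≤ 1 / 2 := by
    intro x
    constructor
    · rintro ⟨y, hy, hyx⟩
      have hy1 : y ∈ Metric.ball (0 : Fin k → ℝ) 1 := by
        rw [mem_closedBall_zero_iff] at hy
        rw [mem_ball_zero_iff]
        linarith
      have hx : x ∈ U := by
        change g x ∈ RelCWComplex.openCell k e
        rw [← hyx]
        exact ⟨y, hy1, rfl⟩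
      refine ⟨hx, ?_⟩
      have h2 : ψ x = y := by
        change Φ.symm (g x) = y
        rw [← hyx]
        exact Φ.left_inv (by rw [hsrc]; exact hy1)
      rw [h2]
      simpa using hy
    · rintro ⟨hx, hx2⟩
      exact ⟨ψ x, by simpa using hx2, hψr x hx⟩
  set V' : Set (EuclideanSpace ℝ (Fin N)) := Subtype.val '' V with hV'
  have hV'A : V' ⊆ A := by
    rintro _ ⟨x, _, rfl⟩
    exact x.2
  have hV'c : IsCompact V' := hVc.isCompact.image continuous_subtype_val
  have hV'm : ∀ x : A, (x : EuclideanSpace ℝ (Fin N)) ∈ V' ↔ x ∈ V := by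
    intro x
    constructor
    · rintro ⟨y, hy, hyx⟩
      rw [← Subtype.ext hyx]
      exact hy
    · intro h
      exact ⟨x, h, rfl⟩
  let inc : C(V', A) := ⟨Set.inclusion hV'A, continuous_inclusion hV'A⟩
  have hinc : ∀ x : V', inc x ∈ V := by
    intro x
    rw [← hV'm]
    exact x.2
  obtain ⟨f', b, hf1, hb, hf2⟩ := hCA1 N V' hV'c ((dimH_mono hV'A).trans hd) k hk
    ⟨fun x => ψ (inc x), hψc.comp_continuous inc.continuous
      (fun x => ((hVU _).mp (hinc x)).1)⟩ (1 / 8) (by norm_num)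
  have hb1 : ‖b‖ < 1 := hb.trans (by norm_num)
  have hV'cs : CompactSpace V' := isCompact_iff_compactSpace.mp hV'c
  have hemb : IsClosedEmbedding inc :=
    inc.continuous.isClosedEmbedding (Set.inclusion_injective hV'A)
  obtain ⟨F, hF⟩ := f'.exists_extension' hemb
  have hFV : ∀ x ∈ V, ‖F x - ψ x‖ < 1 / 8 ∧ F x ≠ b := by
    intro x hx
    have hx' : (x : EuclideanSpace ℝ (Fin N)) ∈ V' := (hV'm x).mpr hx
    have h2 : F x = f' ⟨x, hx'⟩ := congrFun hF ⟨x, hx'⟩
    rw [h2]
    exact ⟨hf1 ⟨x, hx'⟩, hf2 ⟨x, hx'⟩⟩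
  set ψ1 : A → Fin k → ℝ := fun x => ψ x + chi ‖ψ x‖ • (F x - ψ x) with hψ1
  have hψ1b : ∀ x ∈ U, ψ1 x ≠ b := by
    intro x hx
    by_cases h1 : ‖ψ x‖ ≤ 1 / 4
    · have hxV : x ∈ V := (hVU x).mpr ⟨hx, by linarith⟩
      have : ψ1 x = F x := by
        simp only [hψ1, chi_one _ h1, one_smul]
        abel
      rw [this]
      exact (hFV x hxV).2
    · push Not at h1
      intro hcon
      by_cases h2 : ‖ψ x‖ ≤ 1 / 2
      · have hxV : x ∈ V := (hVU x).mpr ⟨hx, h2⟩
        have h3 : ‖ψ1 x - ψ x‖ ≤ 1 / 8 := by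
          have : ψ1 x - ψ x = chi ‖ψ x‖ • (F x - ψ x) := by
            simp only [hψ1]
            abel
          rw [this, norm_smul, Real.norm_eq_abs, abs_of_nonneg (chi_nonneg _)]
          calc chi ‖ψ x‖ * ‖F x - ψ x‖ ≤ 1 * (1 / 8) := by
                refine mul_le_mul (chi_le_one _) (hFV x hxV).1.le (norm_nonneg _) zero_le_one
            _ = 1 / 8 := one_mul _
        have h4 : ‖ψ x‖ ≤ ‖ψ1 x‖ + ‖ψ1 x - ψ x‖ := by
          have : ψ x = ψ1 x - (ψ1 x - ψ x) := by abel
          calc ‖ψ x‖ = ‖ψ1 x - (ψ1 x - ψ x)‖ := by rw [← this]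
            _ ≤ _ := norm_sub_le _ _
        rw [hcon] at h4 h3
        linarith
      · push Not at h2
        have h3 : ψ1 x = ψ x := by
          simp only [hψ1, chi_zero _ h2.le, zero_smul, add_zero]
        rw [h3] at hcon
        rw [hcon] at h2
        linarith
  -- the homotopy
  let w : I × A → Fin k → ℝ := fun p =>
    (1 - (p.1 : ℝ)) • ψ p.2 + (p.1 : ℝ) • RR b (ψ1 p.2)
  have hw : ∀ p : I × A, p.2 ∈ U → w p ∈ Metric.closedBall (0 : Fin k → ℝ) 1 := by
    intro p hp
    have h1 : ψ p.2 ∈ Metric.closedBall (0 : Fin k → ℝ) 1 := by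
      simpa using (hψb _ hp).le
    have h2 : RR b (ψ1 p.2) ∈ Metric.closedBall (0 : Fin k → ℝ) 1 := by
      simpa using (RR_norm b _ hb1 (hψ1b _ hp)).le
    exact (convex_closedBall (0 : Fin k → ℝ) 1) h1 h2 (sub_nonneg.mpr p.1.2.2) p.1.2.1
      (by ring)
  let H : I × A → Y := fun p => if g p.2 ∈ RelCWComplex.openCell k e then Φ (w p) else g p.2
  have hHU : ∀ p : I × A, p.2 ∈ U → H p = Φ (w p) := fun p hp => if_pos hp
  have hHnU : ∀ p : I × A, p.2 ∉ U → H p = g p.2 := fun p hp => if_neg hp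
  have hUo2 : IsOpen {p : I × A | p.2 ∈ U} := hUo.preimage continuous_snd
  have hψc2 : ContinuousOn (fun p : I × A => ψ p.2) {p : I × A | p.2 ∈ U} :=
    hψc.comp continuous_snd.continuousOn (fun p hp => hp)
  have hψ1c2 : ContinuousOn (fun p : I × A => ψ1 p.2) {p : I × A | p.2 ∈ U} := by
    have h1 : ContinuousOn ψ1 U := by
      refine hψc.add (ContinuousOn.smul (chi_cont.comp_continuousOn hψc.norm) ?_)
      exact F.continuous.continuousOn.sub hψc
    exact h1.comp continuous_snd.continuousOn (fun p hp => hp)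
  have hwc : ContinuousOn w {p : I × A | p.2 ∈ U} := by
    have h2 : ContinuousOn (fun p : I × A => RR b (ψ1 p.2)) {p : I × A | p.2 ∈ U} := by
      intro p hp
      exact ContinuousAt.comp_continuousWithinAt (f := fun p : I × A => ψ1 p.2) (g := RR b)
        (RR_cont b _ hb1 (hψ1b _ hp)) (hψ1c2 p hp)
    have h3 : Continuous (fun p : I × A => (p.1 : ℝ)) :=
      continuous_subtype_val.comp continuous_fst
    exact ((continuous_const.sub h3).continuousOn.smul hψc2).add (h3.continuousOn.smul h2)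
  have hH : Continuous H := by
    rw [continuous_iff_continuousAt]
    intro p0
    by_cases hp0 : p0.2 ∈ U
    · have h1 : ContinuousOn H {p : I × A | p.2 ∈ U} := by
        refine ContinuousOn.congr (hΦc.comp hwc (fun p hp => hw p hp)) ?_
        intro p hp
        exact hHU p hp
      exact h1.continuousAt (hUo2.mem_nhds hp0)
    · rw [continuousAt_iff_ultrafilter]
      intro 𝒰 h𝒰
      rw [hHnU p0 hp0]
      have hgt : Tendsto (fun p : I × A => g p.2) 𝒰 (𝓝 (g p0.2)) :=
        ((g.continuous.comp continuous_snd).tendsto p0).mono_left h𝒰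
      rcases 𝒰.em (fun p => p.2 ∈ U) with hin | hout
      · have hcb : Metric.closedBall (0 : Fin k → ℝ) 1 ∈ 𝒰.map (fun p => ψ p.2) := by
          rw [Ultrafilter.mem_map]
          filter_upwards [hin] with p hp
          simpa using (hψb _ hp).le
        obtain ⟨y, hy, hyl⟩ := (isCompact_closedBall (0 : Fin k → ℝ) 1).ultrafilter_le_nhds'
          (𝒰.map (fun p => ψ p.2)) hcb
        have hψl : Tendsto (fun p : I × A => ψ p.2) 𝒰 (𝓝 y) := hyl
        have hψl2 : Tendsto (fun p : I × A => ψ p.2) 𝒰 (𝓝[Metric.closedBall 0 1] y) :=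
          tendsto_nhdsWithin_iff.mpr ⟨hψl, hcb⟩
        have hΦl : Tendsto (fun p : I × A => Φ (ψ p.2)) 𝒰 (𝓝 (Φ y)) :=
          (hΦc y hy).tendsto.comp hψl2
        have hgl : Tendsto (fun p : I × A => g p.2) 𝒰 (𝓝 (Φ y)) := by
          refine hΦl.congr' ?_
          filter_upwards [hin] with p hp
          exact hψr _ hp
        have hgy : Φ y = g p0.2 := tendsto_nhds_unique hgl hgt
        have hy1 : ‖y‖ = 1 := by
          have h1 : ‖y‖ ≤ 1 := by simpa using hy
          refine le_antisymm h1 (not_lt.mp ?_)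
          intro h2
          apply hp0
          change g p0.2 ∈ RelCWComplex.openCell k e
          rw [← hgy]
          exact ⟨y, by simpa using h2, rfl⟩
        have hyb : y ≠ b := by
          rintro rfl
          linarith
        have hψ1l : Tendsto (fun p : I × A => ψ1 p.2) 𝒰 (𝓝 y) := by
          have hFl : Tendsto (fun p : I × A => F p.2) 𝒰 (𝓝 (F p0.2)) :=
            ((F.continuous.comp continuous_snd).tendsto p0).mono_left h𝒰
          have h1 : Tendsto (fun p : I × A => ψ p.2 + chi ‖ψ p.2‖ • (F p.2 - ψ p.2)) 𝒰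
              (𝓝 (y + chi ‖y‖ • (F p0.2 - y))) :=
            hψl.add (((chi_cont.tendsto _).comp hψl.norm).smul (hFl.sub hψl))
          rw [chi_zero ‖y‖ (by rw [hy1]; norm_num), zero_smul, add_zero] at h1
          exact h1
        have hRl : Tendsto (fun p : I × A => RR b (ψ1 p.2)) 𝒰 (𝓝 y) := by
          have := (RR_cont b y hb1 hyb).tendsto.comp hψ1l
          rw [RR_sphere b y hb1 hy1] at this
          exact this
        have htl : Tendsto (fun p : I × A => (p.1 : ℝ)) 𝒰 (𝓝 (p0.1 : ℝ)) :=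
          ((continuous_subtype_val.comp continuous_fst).tendsto p0).mono_left h𝒰
        have hwl : Tendsto w 𝒰 (𝓝 y) := by
          have h1 : Tendsto w 𝒰 (𝓝 ((1 - (p0.1 : ℝ)) • y + (p0.1 : ℝ) • y)) :=
            ((tendsto_const_nhds.sub htl).smul hψl).add (htl.smul hRl)
          have h2 : (1 - (p0.1 : ℝ)) • y + (p0.1 : ℝ) • y = y := by
            rw [← add_smul]; simp
          rw [h2] at h1
          exact h1
        have hwl2 : Tendsto w 𝒰 (𝓝[Metric.closedBall 0 1] y) := by
          refine tendsto_nhdsWithin_iff.mpr ⟨hwl, ?_⟩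
          filter_upwards [hin] with p hp
          exact hw p hp
        have hfin : Tendsto (fun p : I × A => Φ (w p)) 𝒰 (𝓝 (Φ y)) :=
          (hΦc y hy).tendsto.comp hwl2
        rw [hgy] at hfin
        refine hfin.congr' ?_
        filter_upwards [hin] with p hp
        exact (hHU p hp).symm
      · refine hgt.congr' ?_
        filter_upwards [hout] with p hp
        exact (hHnU p hp).symm
  refine ⟨⟨fun x => H (1, x), hH.comp (by fun_prop)⟩, ⟨⟨⟨H, hH⟩, ?_, ?_⟩⟩, ?_⟩
  · intro x
    by_cases hx : x ∈ U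
    · change H (0, x) = g x
      rw [hHU (0, x) hx]
      have : w (0, x) = ψ x := by simp [w]
      rw [this]
      exact hψr x hx
    · exact hHnU (0, x) hx
  · intro x
    rfl
  · intro x
    by_cases hx : x ∈ U
    · right
      change H (1, x) ∈ _
      rw [hHU (1, x) hx]
      apply frontier_sub k e
      refine ⟨w (1, x), ?_, rfl⟩
      have : w (1, x) = RR b (ψ1 x) := by simp [w]
      rw [this]
      simpa using RR_norm b _ hb1 (hψ1b _ hx)
    · left
      exact ⟨hHnU (1, x) hx, hx⟩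

/-- A compact set meets finitely many open cells. -/
theorem fin_cells (K : Set Y) (hK : IsCompact K) :
    {c : Σ n, RelCWComplex.cell (Set.univ : Set Y) n |
      (K ∩ RelCWComplex.openCell c.1 c.2).Nonempty}.Finite := by
  classical
  set T := {c : Σ n, RelCWComplex.cell (Set.univ : Set Y) n |
      (K ∩ RelCWComplex.openCell c.1 c.2).Nonempty} with hT
  choose p hp using (fun e : T => e.2)
  have hpinj : Function.Injective p := by
    intro e e' h
    by_contra hne
    have hne' : e.1 ≠ e'.1 := fun heq => hne (Subtype.ext heq)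
    have h1 := (hp e).2
    have h2 := (hp e').2
    rw [← h] at h2
    exact Set.disjoint_left.mp (RelCWComplex.pairwiseDisjoint (Set.mem_univ _) (Set.mem_univ _)
      hne') h1 h2
  have hclosed : ∀ B : Set T, IsClosed (p '' B) := by
    intro B
    rw [CWComplex.closed (Set.univ : Set Y) _ (Set.subset_univ _)]
    intro n j
    apply Set.Finite.isClosed
    obtain ⟨J, hJ⟩ := CWComplex.cellFrontier_subset_finite_openCell (C := (Set.univ : Set Y)) n j
    have hfin : ({⟨n, j⟩} ∪ ⋃ m ∈ Finset.range n, Sigma.mk m '' (J m : Set _) :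
        Set (Σ n, RelCWComplex.cell (Set.univ : Set Y) n)).Finite := by
      refine (Set.finite_singleton _).union ?_
      refine Set.Finite.biUnion (Finset.finite_toSet _) ?_
      intro m _
      exact (J m).finite_toSet.image _
    refine ((hfin.preimage (f := (Subtype.val : T → _)) Subtype.val_injective.injOn).image
      p).subset ?_
    rintro x ⟨⟨e, _, rfl⟩, hx⟩
    refine ⟨e, ?_, rfl⟩
    have hx' : p e ∈ RelCWComplex.closedCell n j := hx
    rw [← RelCWComplex.cellFrontier_union_openCell_eq_closedCell] at hx'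
    rcases hx' with h | h
    · obtain ⟨m, hx2⟩ := Set.mem_iUnion.mp (hJ h)
      obtain ⟨hm, hx3⟩ := Set.mem_iUnion.mp hx2
      obtain ⟨i, hi, hx4⟩ := Set.mem_iUnion₂.mp hx3
      right
      have heq : (⟨m, i⟩ : Σ n, RelCWComplex.cell (Set.univ : Set Y) n) = e.1 := by
        by_contra hne
        exact Set.disjoint_left.mp (RelCWComplex.pairwiseDisjoint (Set.mem_univ _)
          (Set.mem_univ _) hne) hx4 (hp e).2
      refine Set.mem_iUnion₂.mpr ⟨m, Finset.mem_range.mpr hm, i, hi, heq⟩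
    · left
      by_contra hne
      exact Set.disjoint_left.mp (RelCWComplex.pairwiseDisjoint (Set.mem_univ _)
        (Set.mem_univ _) hne) (hp e).2 h
  have hcomp : IsCompact (Set.range p) := by
    refine hK.of_isClosed_subset ?_ ?_
    · have := hclosed Set.univ
      rwa [Set.image_univ] at this
    · rintro _ ⟨e, rfl⟩
      exact (hp e).1
  have hdisc : IsDiscrete (Set.range p) := by
    refine ⟨discreteTopology_iff_forall_isClosed.mpr fun U => ?_⟩
    have h1 : U = Subtype.val ⁻¹' (p '' {e | p e ∈ Subtype.val '' U}) := by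
      ext ⟨x, hx⟩
      constructor
      · intro hU
        obtain ⟨e, rfl⟩ := hx
        exact ⟨e, ⟨_, hU, rfl⟩, rfl⟩
      · rintro ⟨e, ⟨u, hu, hue⟩, hex⟩
        have : u = ⟨x, hx⟩ := Subtype.ext (hue.trans hex)
        rw [← this]
        exact hu
    rw [h1]
    exact (hclosed _).preimage continuous_subtype_val
  have hfin := hcomp.finite hdisc
  have : Finite T := by
    have := hfin.to_subtype
    exact Finite.of_injective (Set.rangeFactorization p)
      (fun a b h => hpinj (congrArg Subtype.val h))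
  exact Set.toFinite T

/-- all `k`-cells at once -/
theorem step2 (hCA1 : S_CA1) {N : ℕ} {A : Set (EuclideanSpace ℝ (Fin N))} (hA : IsCompact A)
    (hd : dimH A ≤ 4) (k : ℕ) (hk : 5 ≤ k) :
    ∀ (n : ℕ) (g : C(A, Y)), (∀ x, g x ∈ sk Y (k + 1)) →
      {e : RelCWComplex.cell (Set.univ : Set Y) k |
        ∃ x, g x ∈ RelCWComplex.openCell k e}.ncard ≤ n →
      ∃ g' : C(A, Y), g.Homotopic g' ∧ ∀ x, g' x ∈ sk Y k := by
  classical
  have hAc : CompactSpace A := isCompact_iff_compactSpace.mp hA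
  have hfin : ∀ g : C(A, Y), {e : RelCWComplex.cell (Set.univ : Set Y) k |
        ∃ x, g x ∈ RelCWComplex.openCell k e}.Finite := by
    intro g
    have h1 := fin_cells (Set.range g) (isCompact_range g.continuous)
    refine Set.Finite.subset (h1.preimage (f := fun e => (⟨k, e⟩ : Σ n, _))
      (fun a _ b _ h => eq_of_heq (Sigma.mk.inj_iff.mp h).2)) ?_
    rintro e ⟨x, hx⟩
    exact ⟨g x, ⟨x, rfl⟩, hx⟩
  have hlow : ∀ g : C(A, Y), (∀ x, g x ∈ sk Y (k + 1)) →
      ({e : RelCWComplex.cell (Set.univ : Set Y) k |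
        ∃ x, g x ∈ RelCWComplex.openCell k e} = ∅) → ∀ x, g x ∈ sk Y k := by
    intro g hg hem x
    obtain ⟨m, hm, j, hj⟩ := (mem_sk _ _).mp (hg x)
    rw [mem_sk]
    by_cases hmk : m = k
    · subst hmk
      have : j ∈ ({e : RelCWComplex.cell (Set.univ : Set Y) m |
        ∃ x, g x ∈ RelCWComplex.openCell m e}) := ⟨x, hj⟩
      rw [hem] at this
      exact absurd this (Set.notMem_empty _)
    · exact ⟨m, by omega, j, hj⟩
  intro n
  induction n with
  | zero =>
    intro g hg hn
    refine ⟨g, ContinuousMap.Homotopic.refl g, hlow g hg ?_⟩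
    rw [Nat.le_zero, Set.ncard_eq_zero (hfin g)] at hn
    exact hn
  | succ n ih =>
    intro g hg hn
    by_cases hem : ({e : RelCWComplex.cell (Set.univ : Set Y) k |
        ∃ x, g x ∈ RelCWComplex.openCell k e} = ∅)
    · exact ⟨g, ContinuousMap.Homotopic.refl g, hlow g hg hem⟩
    · obtain ⟨e, he⟩ := Set.nonempty_iff_ne_empty.mpr hem
      obtain ⟨g1, hg1, hg1'⟩ := step hCA1 hA hd k hk e g hg
      have hg1s : ∀ x, g1 x ∈ sk Y (k + 1) := by
        intro x
        rcases hg1' x with h | h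
        · rw [h.1]
          exact hg x
        · exact sk_mono (Nat.le_succ k) h
      have hsub : {e : RelCWComplex.cell (Set.univ : Set Y) k |
          ∃ x, g1 x ∈ RelCWComplex.openCell k e} ⊆
          {e : RelCWComplex.cell (Set.univ : Set Y) k |
          ∃ x, g x ∈ RelCWComplex.openCell k e} \ {e} := by
        rintro e' ⟨x, hx⟩
        rcases hg1' x with h | h
        · rw [h.1] at hx
          refine ⟨⟨x, hx⟩, ?_⟩
          intro hee
          rw [Set.mem_singleton_iff] at hee
          rw [hee] at hx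
          exact h.2 hx
        · exact absurd hx (Set.disjoint_left.mp (sk_disj k k le_rfl e') h)
      have hcard := Set.ncard_le_ncard hsub ((hfin g).subset Set.sdiff_subset)
      have hcard2 := Set.ncard_sdiff_singleton_lt_of_mem he (hfin g)
      obtain ⟨g2, hg2, hg2'⟩ := ih g1 hg1s (by omega)
      exact ⟨g2, hg1.trans hg2, hg2'⟩

theorem step3 (hCA1 : S_CA1) {N : ℕ} {A : Set (EuclideanSpace ℝ (Fin N))} (hA : IsCompact A)
    (hd : dimH A ≤ 4) : ∀ (M : ℕ) (g : C(A, Y)), (∀ x, g x ∈ sk Y M) →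
      ∃ g' : C(A, Y), g.Homotopic g' ∧ ∀ x, g' x ∈ sk Y 5 := by
  intro M
  induction M with
  | zero =>
    intro g hg
    exact ⟨g, ContinuousMap.Homotopic.refl g, fun x => sk_mono (by omega) (hg x)⟩
  | succ M ih =>
    intro g hg
    by_cases hM : M + 1 ≤ 5
    · exact ⟨g, ContinuousMap.Homotopic.refl g, fun x => sk_mono hM (hg x)⟩
    · obtain ⟨g1, h1, h2⟩ := step2 hCA1 hA hd M (by omega) _ g hg le_rfl
      obtain ⟨g2, h3, h4⟩ := ih g1 h2
      exact ⟨g2, h1.trans h3, h4⟩

end CW

theorem main : S_CA1 → S_CA := by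
  intro hCA1 N A hA hd Y _ _ cw g
  have hAc : CompactSpace A := isCompact_iff_compactSpace.mp hA
  have h1 := fin_cells (Set.range g) (isCompact_range g.continuous)
  obtain ⟨M, hM⟩ := (h1.image Sigma.fst).bddAbove
  have h2 : ∀ x, g x ∈ sk Y (M + 1) := by
    intro x
    rw [mem_sk]
    have h3 := CWComplex.iUnion_openCell_eq_complex (C := (Set.univ : Set Y))
    have h4 : g x ∈ (Set.univ : Set Y) := Set.mem_univ _
    rw [← h3] at h4
    obtain ⟨n, h5⟩ := Set.mem_iUnion.mp h4
    obtain ⟨j, h6⟩ := Set.mem_iUnion.mp h5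
    have h7 : n ≤ M := hM ⟨⟨n, j⟩, ⟨g x, ⟨x, rfl⟩, h6⟩, rfl⟩
    exact ⟨n, by omega, j, h6⟩
  obtain ⟨g', h3, h4⟩ := step3 hCA1 hA hd (M + 1) g h2
  exact ⟨g', h3, h4⟩

end Pool.Agent.W255.SCCA2
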